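import Mathlib
import Pool.Agent.W5h17.KirchMain

/-!
# A positive fraction version of Kirchberger's theorem

Q1 is answered in the affirmative, with the explicit function
`g(ε) = (8 log(1/ε) + 5 d) ε^(1/(d+2))`.

Proof. Let `X = A ∪ B`, take a uniformly random `m`-element subset `S` of `X`, where
`m = ⌊ε^(-1/(d+2))⌋`. With probability more than `1/2` all `(d+2)`-subsets of `S` are good, so by
Kirchberger's theorem `A ∩ S` and `B ∩ S` are separated, and then (general position) also weakly
separated by a hyperplane through exactly `d` points of `S`. This hyperplane is one of `2 C(m,d)`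
signed hyperplanes spanned by `d` points of `S`; by a union bound, with probability more than `1/2`
each of these hyperplanes which misclassifies more than `δ |X|` points of `X` misclassifies a point
of `S`. If `X` has fewer than `m` points, all its `(d+2)`-subsets are good.
-/

set_option autoImplicit false

open Filter Topology Pool.Agent.W5h17.Kirch

namespace Pool.Agent.Results.MP_ff3a4f_co.PositiveFraction

/-- The hyperplane `{x | ⟨v, x⟩ = c}`, `v ≠ 0`, separates `P` and `Q` for some `v` and `c`: the points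
of `P` lie in one of its open half-spaces and the points of `Q` in the other. -/
def Separated {d : ℕ} (P Q : Finset (EuclideanSpace ℝ (Fin d))) : Prop :=
  ∃ (v : EuclideanSpace ℝ (Fin d)) (c : ℝ), v ≠ 0 ∧ (∀ x ∈ P, inner ℝ v x < c) ∧
    ∀ x ∈ Q, c < inner ℝ v x

/-- General position: no `d + 1` points of `X` lie on a common hyperplane. (If `X` has at most `d`
points this is void, and general position is understood as affine independence.) -/
def GeneralPosition {d : ℕ} (X : Finset (EuclideanSpace ℝ (Fin d))) : Prop :=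
  (∀ I ⊆ X, I.card = d + 1 →
    ¬ ∃ (v : EuclideanSpace ℝ (Fin d)) (c : ℝ), v ≠ 0 ∧ ∀ x ∈ I, inner ℝ v x = c) ∧
  (X.card ≤ d → AffineIndependent ℝ (fun x : X => (x : EuclideanSpace ℝ (Fin d))))

open scoped Classical in
/-- The good `(d+2)`-subsets `S` of `A ∪ B`: those for which `A ∩ S` and `B ∩ S` are separated. -/
noncomputable def goodSubsets {d : ℕ} (A B : Finset (EuclideanSpace ℝ (Fin d))) :
    Finset (Finset (EuclideanSpace ℝ (Fin d))) :=
  ((A ∪ B).powersetCard (d + 2)).filter (fun S => Separated (A ∩ S) (B ∩ S))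

variable {d : ℕ}

lemma sep_of_separated {P Q : Finset (E d)} (h : Separated P Q) : W5h17.Kirch.Sep P Q := by
  obtain ⟨v, c, -, h1, h2⟩ := h
  exact ⟨(v, c), fun x hx => by have := h1 x hx; simp only [ev]; linarith,
    fun x hx => by have := h2 x hx; simp only [ev]; linarith⟩

lemma separated_of_sep (hd : 1 ≤ d) {P Q : Finset (E d)} (h : W5h17.Kirch.Sep P Q) : Separated P Q := by
  classical
  obtain ⟨w, h1, h2⟩ := h
  have hv0 : ∃ v : E d, v ≠ 0 := by
    refine ⟨EuclideanSpace.single ⟨0, by omega⟩ 1, ?_⟩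
    intro h0
    have := congrArg norm h0
    simp at this
  obtain ⟨v, hv⟩ := hv0
  rcases P.eq_empty_or_nonempty with hP | hP
  · subst hP
    rcases Q.eq_empty_or_nonempty with hQ | hQ
    · subst hQ
      exact ⟨v, 0, hv, by simp, by simp⟩
    · obtain ⟨y, hy, hmin⟩ := Q.exists_min_image (fun x => inner ℝ v x) hQ
      exact ⟨v, inner ℝ v y - 1, hv, by simp, fun x hx => by have := hmin x hx; linarith⟩
  · rcases Q.eq_empty_or_nonempty with hQ | hQ
    · subst hQ
      obtain ⟨y, hy, hmax⟩ := P.exists_max_image (fun x => inner ℝ v x) hP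
      exact ⟨v, inner ℝ v y + 1, hv, fun x hx => by have := hmax x hx; linarith, by simp⟩
    · refine ⟨w.1, w.2, ?_, fun x hx => ?_, fun x hx => ?_⟩
      · intro h0
        obtain ⟨x, hx⟩ := hP
        obtain ⟨y, hy⟩ := hQ
        have e1 := h1 x hx
        have e2 := h2 y hy
        simp only [ev, h0, inner_zero_left] at e1 e2
        linarith
      · have := h1 x hx; simp only [ev] at this; linarith
      · have := h2 x hx; simp only [ev] at this; linarith

lemma gp_of {X : Finset (E d)} (h : GeneralPosition X) : GP X := by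
  intro I hI hIc w hw
  by_contra hne
  by_cases h1 : w.1 = 0
  · have hIne : I.Nonempty := by rw [← Finset.card_pos]; omega
    obtain ⟨x, hx⟩ := hIne
    have := hw x hx
    simp only [ev, h1, inner_zero_left] at this
    apply hne
    exact Prod.ext h1 (by simp; linarith)
  · apply h.1 I hI hIc
    refine ⟨w.1, w.2, h1, fun x hx => ?_⟩
    have := hw x hx
    simp only [ev] at this
    linarith

/-- the function `g` -/
noncomputable def gfun (d : ℕ) (ε : ℝ) : ℝ :=
  if ε ≤ 1 then (8 * Real.log (1 / ε) + 5 * d) * ε ^ (1 / ((d : ℝ) + 2)) else 1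

lemma gfun_tendsto (d : ℕ) : Tendsto (gfun d) (𝓝[>] 0) (𝓝 0) := by
  have ha : (0 : ℝ) < 1 / ((d : ℝ) + 2) := by positivity
  have h1 := tendsto_log_mul_rpow_nhdsGT_zero ha
  have h2 : Tendsto (fun ε : ℝ => ε ^ (1 / ((d : ℝ) + 2))) (𝓝[>] 0) (𝓝 0) := by
    have : Tendsto (fun ε : ℝ => ε ^ (1 / ((d : ℝ) + 2))) (𝓝 0) (𝓝 (0 ^ (1 / ((d : ℝ) + 2)))) :=
      (Real.continuousAt_rpow_const 0 _ (Or.inr ha.le)).tendsto
    rw [Real.zero_rpow ha.ne'] at this
    exact this.mono_left nhdsWithin_le_nhds
  have h3 : Tendsto (fun ε : ℝ => (-8) * (Real.log ε * ε ^ (1 / ((d : ℝ) + 2))) +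
      5 * d * ε ^ (1 / ((d : ℝ) + 2))) (𝓝[>] 0) (𝓝 0) := by
    have := (h1.const_mul (-8)).add (h2.const_mul (5 * (d : ℝ)))
    simpa using this
  refine h3.congr' ?_
  have hmem : Set.Ioo (0 : ℝ) 1 ∈ 𝓝[>] (0 : ℝ) := Ioo_mem_nhdsGT (by norm_num)
  filter_upwards [hmem] with ε hε
  unfold gfun
  rw [if_pos hε.2.le, one_div ε, Real.log_inv]
  ring

/-- For every `d ≥ 1` there is a function `g` with `g(ε) → 0` for `ε → 0+`, namely
`g(ε) = (8 log(1/ε) + 5 d) ε^(1/(d+2))` for `0 < ε ≤ 1`, such that for all `N` and all disjoint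
`A, B ⊆ ℝ^d` with `|A| = |B| = N` and `A ∪ B` in general position: if at least a `1 - ε` fraction of
the `C(2N, d+2)` subsets with `d + 2` elements of `A ∪ B` are good, then there are separated
`A' ⊆ A`, `B' ⊆ B` with `|A'|, |B'| ≥ (1 - g(ε)) N`. -/
theorem result (d : ℕ) (hd : 1 ≤ d) :
    ∃ g : ℝ → ℝ, Tendsto g (𝓝[>] 0) (𝓝 0) ∧
      (∀ ε : ℝ, 0 < ε → ε ≤ 1 →
        g ε = (8 * Real.log (1 / ε) + 5 * d) * ε ^ (1 / ((d : ℝ) + 2))) ∧
      ∀ ε : ℝ, 0 < ε → ∀ (N : ℕ) (A B : Finset (EuclideanSpace ℝ (Fin d))),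
        Disjoint A B → A.card = N → B.card = N →
        GeneralPosition (open scoped Classical in A ∪ B) →
        (1 - ε) * ((2 * N).choose (d + 2) : ℝ) ≤ (goodSubsets A B).card →
        ∃ A' ⊆ A, ∃ B' ⊆ B, Separated A' B' ∧
          (1 - g ε) * N ≤ A'.card ∧ (1 - g ε) * N ≤ B'.card := by
  classical
  refine ⟨gfun d, gfun_tendsto d, fun ε _ h => by unfold gfun; rw [if_pos h], ?_⟩
  intro ε hε N A B hdis hA hB hgp' hgood
  have hgp := gp_of hgp'
  have hd' : (1 : ℝ) ≤ d := by exact_mod_cast hd
  -- the trivial case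
  by_cases hg1 : 1 ≤ gfun d ε
  · refine ⟨∅, Finset.empty_subset _, ∅, Finset.empty_subset _, ?_, ?_, ?_⟩
    · exact separated_of_sep hd ⟨0, by simp, by simp⟩
    · simp only [Finset.card_empty, Nat.cast_zero]
      exact mul_nonpos_of_nonpos_of_nonneg (by linarith) (Nat.cast_nonneg N)
    · simp only [Finset.card_empty, Nat.cast_zero]
      exact mul_nonpos_of_nonpos_of_nonneg (by linarith) (Nat.cast_nonneg N)
  push Not at hg1
  have hε1 : ε ≤ 1 := by
    by_contra h
    unfold gfun at hg1
    rw [if_neg h] at hg1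
    exact lt_irrefl _ hg1
  set a : ℝ := 1 / ((d : ℝ) + 2) with ha
  have hapos : 0 < a := by positivity
  have hgdef : gfun d ε = (8 * Real.log (1 / ε) + 5 * d) * ε ^ a := by
    unfold gfun; rw [if_pos hε1]
  set t : ℝ := (ε ^ a)⁻¹ with ht
  have hεa : 0 < ε ^ a := Real.rpow_pos_of_pos hε a
  have htpos : 0 < t := inv_pos.mpr hεa
  have hεat : ε ^ a = 1 / t := by rw [ht]; simp
  have hlogt : Real.log t = a * Real.log (1 / ε) := by
    rw [ht, Real.log_inv, Real.log_rpow hε, one_div, Real.log_inv]; ring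
  have hlog0 : 0 ≤ Real.log (1 / ε) := Real.log_nonneg (by rw [le_div_iff₀ hε]; linarith)
  have hlog1 : Real.log (1 / ε) = (d + 2) * Real.log t := by
    rw [hlogt, ha]; field_simp
  rw [hgdef, hεat] at hg1
  have hg2 : 8 * Real.log (1 / ε) + 5 * d < t := by
    have : (8 * Real.log (1 / ε) + 5 * d) * (1 / t) * t < 1 * t := by
      apply mul_lt_mul_of_pos_right hg1 htpos
    rw [one_mul, mul_assoc, one_div_mul_cancel htpos.ne', mul_one] at this
    exact this
  have ht5 : 5 * (d : ℝ) < t := by linarith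
  set m : ℕ := ⌊t⌋₊ with hm
  have hmt : (m : ℝ) ≤ t := Nat.floor_le htpos.le
  have hm5 : 5 * d ≤ m := by
    rw [hm]; apply Nat.le_floor; push_cast; linarith
  have hm5' : 5 * (d : ℝ) ≤ m := by exact_mod_cast hm5
  have hmt1 : t < m + 1 := Nat.lt_floor_add_one t
  have hm45 : 4 / 5 * t ≤ m := by linarith
  have hmpos : (0 : ℝ) < m := by linarith
  have hlogm : Real.log m ≤ Real.log t := Real.log_le_log hmpos hmt
  have hlogm0 : 0 ≤ Real.log m := Real.log_nonneg (by linarith)
  have hlogt0 : 0 ≤ Real.log t := hlogm0.trans hlogm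
  -- the first probability
  have hp1 : ε * (m.choose (d + 2) : ℝ) ≤ 1 / 6 := by
    have h1 : (m.choose (d + 2) : ℝ) ≤ (m : ℝ) ^ (d + 2) / ((d + 2).factorial : ℝ) :=
      Nat.choose_le_pow_div (d + 2) m
    have h2 : (6 : ℝ) ≤ ((d + 2).factorial : ℝ) := by
      have : (3).factorial ≤ (d + 2).factorial := Nat.factorial_le (by omega)
      have h3 : (3).factorial = 6 := rfl
      rw [h3] at this
      exact_mod_cast this
    have h4 : (m : ℝ) ^ (d + 2) ≤ t ^ (d + 2) := pow_le_pow_left₀ hmpos.le hmt _
    have h5 : ε * t ^ (d + 2) = 1 := by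
      have h6 : (ε ^ a) ^ (d + 2) = ε := by
        rw [← Real.rpow_natCast, ← Real.rpow_mul hε.le]
        have : a * ((d + 2 : ℕ) : ℝ) = 1 := by rw [ha]; push_cast; field_simp
        rw [this, Real.rpow_one]
      rw [ht, inv_pow, h6, mul_inv_cancel₀ hε.ne']
    calc ε * (m.choose (d + 2) : ℝ) ≤ ε * ((m : ℝ) ^ (d + 2) / ((d + 2).factorial : ℝ)) := by gcongr
      _ ≤ ε * (t ^ (d + 2) / 6) := by gcongr
      _ = 1 / 6 := by rw [← mul_div_assoc, h5]
  -- good and bad sets
  set X := A ∪ B with hX
  have hXc : X.card = 2 * N := by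
    rw [hX, Finset.card_union_of_disjoint hdis, hA, hB]; ring
  set F := (X.powersetCard (d + 2)).filter (fun S => ¬ Separated (A ∩ S) (B ∩ S)) with hF
  have hFc : (F.card : ℝ) ≤ ε * (X.card.choose (d + 2)) := by
    have h1 : (goodSubsets A B).card + F.card = X.card.choose (d + 2) := by
      rw [← Finset.card_powersetCard]
      unfold goodSubsets
      exact Finset.card_filter_add_card_filter_not _
    have h2 : ((goodSubsets A B).card : ℝ) + F.card = X.card.choose (d + 2) := by exact_mod_cast h1
    rw [← hXc] at hgood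
    linarith
  have hgd : ∀ I ∈ X.powersetCard (d + 2), I ∉ F → W5h17.Kirch.Sep (A ∩ I) (B ∩ I) := by
    intro I hI hIF
    apply sep_of_separated
    by_contra hcon
    exact hIF (Finset.mem_filter.mpr ⟨hI, hcon⟩)
  rcases Nat.lt_or_ge X.card m with hXm | hXm
  · -- few points: all subsets are good
    have hF0 : F = ∅ := by
      rw [← Finset.card_eq_zero]
      by_contra hne
      have h1 : 1 ≤ F.card := Nat.one_le_iff_ne_zero.mpr hne
      have h2 : (1 : ℝ) ≤ F.card := by exact_mod_cast h1
      have h3 : (X.card.choose (d + 2) : ℝ) ≤ m.choose (d + 2) := by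
        exact_mod_cast Nat.choose_le_choose (d + 2) hXm.le
      have h4 : ε * (X.card.choose (d + 2) : ℝ) ≤ ε * m.choose (d + 2) := by gcongr
      linarith
    have hgd' : ∀ I ⊆ A ∪ B, I.card = d + 2 → W5h17.Kirch.Sep (A ∩ I) (B ∩ I) := by
      intro I hI hIc
      exact hgd I (Finset.mem_powersetCard.mpr ⟨hI, hIc⟩) (by rw [hF0]; simp)
    have hsep : W5h17.Kirch.Sep A B := by
      rcases Nat.lt_or_ge X.card (d + 1) with h1 | h1
      · rcases Nat.eq_zero_or_pos N with hN | hN
        · rw [hN, Finset.card_eq_zero] at hA hB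
          rw [hA, hB]
          exact ⟨0, by simp, by simp⟩
        · apply sep_of_affineIndependent A B hdis
          · rw [← Finset.card_pos]; omega
          · rw [← Finset.card_pos]; omega
          · exact hgp'.2 (by omega)
      · exact kirchberger_gp A B hdis h1 hgp hgd'
    have hg0 : 0 ≤ gfun d ε := by rw [hgdef]; positivity
    refine ⟨A, Finset.Subset.refl _, B, Finset.Subset.refl _, separated_of_sep hd hsep, ?_, ?_⟩
    · rw [hA]
      have := mul_nonneg hg0 (Nat.cast_nonneg (α := ℝ) N)
      linarith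
    · rw [hB]
      have := mul_nonneg hg0 (Nat.cast_nonneg (α := ℝ) N)
      linarith
  · -- many points: sampling
    set δ : ℝ := 2 * (d + 2) * Real.log m / m with hδ
    have hδ0 : 0 ≤ δ := by rw [hδ]; positivity
    have hδ1 : δ ≤ 1 := by
      rw [hδ, div_le_one hmpos]
      have h1 : 2 * ((d : ℝ) + 2) * Real.log m ≤ 2 * ((d + 2) * Real.log t) := by
        rw [mul_assoc]
        gcongr
      linarith
    have hmd : (d : ℝ) ≤ m / 2 := by linarith
    have hmd' : d ≤ m := by omega
    have hp2 : 2 * (m.choose d : ℝ) * (1 - δ) ^ (m - d) ≤ 2 / 25 := by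
      have h1 : (m.choose d : ℝ) ≤ (m : ℝ) ^ d := by
        exact_mod_cast Nat.choose_le_pow m d
      have h2 : (1 - δ) ^ (m - d) ≤ Real.exp (-δ) ^ (m - d) := by
        apply pow_le_pow_left₀ (by linarith)
        have := Real.add_one_le_exp (-δ)
        linarith
      have h3 : Real.exp (-δ) ^ (m - d) ≤ ((m : ℝ) ^ (d + 2))⁻¹ := by
        rw [← Real.exp_nat_mul]
        have h4 : ((m : ℝ) ^ (d + 2))⁻¹ = Real.exp (-((d + 2) * Real.log m)) := by
          rw [Real.exp_neg]
          congr 1
          rw [← Real.rpow_natCast, Real.rpow_def_of_pos hmpos]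
          push_cast
          ring_nf
        rw [h4]
        apply Real.exp_le_exp.mpr
        rw [Nat.cast_sub hmd', hδ]
        have h5 : (m : ℝ) / 2 ≤ m - d := by linarith
        have h6 : (d + 2) * Real.log m ≤ (m - d) * (2 * (d + 2) * Real.log m / m) := by
          calc (d + 2) * Real.log m = (m / 2) * (2 * (d + 2) * Real.log m / m) := by
                field_simp
            _ ≤ (m - d) * (2 * (d + 2) * Real.log m / m) := by
                apply mul_le_mul_of_nonneg_right h5 (by positivity)
        linarith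
      have h7 : (0 : ℝ) ≤ (1 - δ) ^ (m - d) := pow_nonneg (by linarith) _
      calc 2 * (m.choose d : ℝ) * (1 - δ) ^ (m - d) ≤ 2 * (m : ℝ) ^ d * ((m : ℝ) ^ (d + 2))⁻¹ := by
            apply mul_le_mul (by linarith) (h2.trans h3) h7 (by positivity)
        _ = 2 / (m : ℝ) ^ 2 := by
            rw [pow_add]; field_simp
        _ ≤ 2 / 25 := by
            apply div_le_div_of_nonneg_left (by norm_num) (by norm_num)
            have h5 : (5 : ℝ) ≤ m := by linarith
            have := pow_le_pow_left₀ (by norm_num : (0 : ℝ) ≤ 5) h5 2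
            linarith
    obtain ⟨A', hA', B', hB', hsep, hcA, hcB⟩ := core A B hdis hgp m (by omega) hXm ε δ hδ0 hδ1 F
      (Finset.filter_subset _ _) hFc hgd (by linarith)
    have hN : (m : ℝ) ≤ 2 * N := by
      have : m ≤ 2 * N := by rw [← hXc]; exact hXm
      exact_mod_cast this
    have hNpos : (0 : ℝ) < N := by linarith
    have hfin : (1 - gfun d ε) * N ≤ (N : ℝ) - δ * X.card - d := by
      rw [hXc]
      push_cast
      have h1 : 2 * δ * t ≤ 5 * Real.log (1 / ε) := by
        rw [hδ, hlog1]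
        have h2 : t / m ≤ 5 / 4 := by
          rw [div_le_iff₀ hmpos]; linarith
        calc 2 * (2 * (d + 2) * Real.log m / m) * t = 4 * (d + 2) * Real.log m * (t / m) := by ring
          _ ≤ 4 * (d + 2) * Real.log t * (5 / 4) := by
              apply mul_le_mul _ h2 (div_nonneg htpos.le hmpos.le) (by positivity)
              apply mul_le_mul_of_nonneg_left hlogm (by positivity)
          _ = 5 * ((d + 2) * Real.log t) := by ring
      have h3 : d * t ≤ 5 * d * N := by
        have h31 : t ≤ 5 * N := by linarith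
        have := mul_le_mul_of_nonneg_left h31 (by positivity : (0 : ℝ) ≤ d)
        linarith
      have h4 : gfun d ε * t = 8 * Real.log (1 / ε) + 5 * d := by
        rw [hgdef, hεat]; field_simp
      -- multiply by t
      have h5 : (δ * (2 * N) + d) * t ≤ gfun d ε * N * t := by
        have e1 : gfun d ε * N * t = (8 * Real.log (1 / ε) + 5 * d) * N := by
          rw [← h4]; ring
        rw [e1]
        have e2 : δ * (2 * N) * t ≤ 5 * Real.log (1 / ε) * N := by
          calc δ * (2 * N) * t = (2 * δ * t) * N := by ring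
            _ ≤ 5 * Real.log (1 / ε) * N := mul_le_mul_of_nonneg_right h1 hNpos.le
        have e3 := mul_nonneg hlog0 hNpos.le
        calc (δ * (2 * N) + d) * t = δ * (2 * N) * t + d * t := by ring
          _ ≤ 5 * Real.log (1 / ε) * N + 5 * d * N := add_le_add e2 h3
          _ ≤ (8 * Real.log (1 / ε) + 5 * d) * N := by linarith
      have h6 := le_of_mul_le_mul_right h5 htpos
      linarith
    refine ⟨A', hA', B', hB', separated_of_sep hd hsep, ?_, ?_⟩
    · rw [hA] at hcA; linarith
    · rw [hB] at hcB; linarith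

end Pool.Agent.Results.MP_ff3a4f_co.PositiveFraction
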